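import Mathlib

set_option autoImplicit false

namespace Pool.Agent.Results.MP_2d6919_lc.Full

open Set Filter Function Topology
open scoped ENNReal

universe u

/-- A measure on a Boolean algebra: finite, strictly positive and countably additive. -/
def IsMeasure {A : Type u} [BooleanAlgebra A] (μ : A → ℝ) : Prop :=
  (∀ a, 0 ≤ μ a) ∧ (∀ a, a ≠ ⊥ → 0 < μ a) ∧
    ∀ (a : ℕ → A) (s : A), (∀ i j, i ≠ j → a i ⊓ a j = ⊥) → IsLUB (range a) s →
      HasSum (fun n => μ (a n)) (μ s)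

/-- A continuous outer measure on a complete Boolean algebra. -/
def IsContinuousOuterMeasure {B : Type u} [CompleteBooleanAlgebra B] (m : B → ℝ) : Prop :=
  (∀ a, 0 ≤ m a) ∧ m ⊥ = 0 ∧ (∀ a, a ≠ ⊥ → 0 < m a) ∧ (∀ a b, a ≤ b → m a ≤ m b) ∧
    (∀ a b, m (a ⊔ b) ≤ m a + m b) ∧
    ∀ a : ℕ → B, (∀ n, a (n + 1) ≤ a n) → ⨅ n, a n = ⊥ → Tendsto (fun n => m (a n)) atTop (𝓝 0)

/-- The countable chain condition. -/
def CCC (B : Type u) [CompleteBooleanAlgebra B] : Prop :=
  ∀ S : Set B, (∀ a ∈ S, a ≠ ⊥) → (∀ a ∈ S, ∀ b ∈ S, a ≠ b → a ⊓ b = ⊥) → S.Countable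

/-- Complete subalgebras: closed under all suprema and infima taken in `B`. -/
def IsCompleteSubalgebra {B : Type u} [CompleteBooleanAlgebra B] (L : BooleanSubalgebra B) : Prop :=
  ∀ S : Set B, S ⊆ (L : Set B) → sSup S ∈ L ∧ sInf S ∈ L

/-- Countably generated complete subalgebras: the smallest complete subalgebra containing some
countable set. -/
def CountablyGenerated {B : Type u} [CompleteBooleanAlgebra B] (L : BooleanSubalgebra B) : Prop :=
  ∃ G : Set B, G.Countable ∧ G ⊆ (L : Set B) ∧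
    ∀ L' : BooleanSubalgebra B, IsCompleteSubalgebra L' → G ⊆ (L' : Set B) → (L : Set B) ⊆ L'

variable {B : Type u} [CompleteBooleanAlgebra B]

/-- The complete subalgebra generated by a set. -/
def gen (G : Set B) : BooleanSubalgebra B where
  carrier := {b | ∀ L : BooleanSubalgebra B, IsCompleteSubalgebra L → G ⊆ (L : Set B) → b ∈ L}
  supClosed' := fun _ ha _ hb L h1 h2 => L.supClosed (ha L h1 h2) (hb L h1 h2)
  infClosed' := fun _ ha _ hb L h1 h2 => L.infClosed (ha L h1 h2) (hb L h1 h2)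
  compl_mem' := fun ha L h1 h2 => BooleanSubalgebra.compl_mem (ha L h1 h2)
  bot_mem' := fun _ _ _ => BooleanSubalgebra.bot_mem

theorem mem_gen {G : Set B} {b : B} :
    b ∈ gen G ↔ ∀ L : BooleanSubalgebra B, IsCompleteSubalgebra L → G ⊆ (L : Set B) → b ∈ L :=
  Iff.rfl

theorem subset_gen (G : Set B) : G ⊆ (gen G : Set B) := fun _ hb _ _ h2 => h2 hb

theorem gen_complete (G : Set B) : IsCompleteSubalgebra (gen G) := by
  intro S hS
  exact ⟨fun L h1 h2 => (h1 S (fun b hb => hS hb L h1 h2)).1,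
    fun L h1 h2 => (h1 S (fun b hb => hS hb L h1 h2)).2⟩

theorem gen_mono {G H : Set B} (h : G ⊆ H) {b : B} (hb : b ∈ gen G) : b ∈ gen H :=
  fun L h1 h2 => hb L h1 (h.trans h2)

theorem gen_cg {G : Set B} (hG : G.Countable) : CountablyGenerated (gen G) :=
  ⟨G, hG, subset_gen G, fun L' h1 h2 _ hb => hb L' h1 h2⟩

theorem iSup_mem {L : BooleanSubalgebra B} (hL : IsCompleteSubalgebra L) {a : ℕ → B}
    (ha : ∀ n, a n ∈ L) : ⨆ n, a n ∈ L := by
  have := (hL (range a) (by rintro _ ⟨n, rfl⟩; exact ha n)).1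
  rwa [sSup_range] at this

theorem iInf_mem {L : BooleanSubalgebra B} (hL : IsCompleteSubalgebra L) {a : ℕ → B}
    (ha : ∀ n, a n ∈ L) : ⨅ n, a n ∈ L := by
  have := (hL (range a) (by rintro _ ⟨n, rfl⟩; exact ha n)).2
  rwa [sInf_range] at this

/-- A measure on a complete subalgebra, extended by zero and with values in `[0, ∞]`. -/
structure MeasOn (L : BooleanSubalgebra B) (μ : B → ℝ≥0∞) : Prop where
  pos : ∀ a ∈ L, a ≠ ⊥ → μ a ≠ 0
  fin : ∀ a ∈ L, μ a ≠ ∞
  add : ∀ a : ℕ → B, (∀ n, a n ∈ L) → Pairwise (Disjoint on a) → μ (⨆ n, a n) = ∑' n, μ (a n)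

theorem exists_measOn {L : BooleanSubalgebra B} (hL : IsCompleteSubalgebra L)
    (h : ∃ μ : L → ℝ, IsMeasure μ) : ∃ μ : B → ℝ≥0∞, MeasOn L μ := by
  classical
  obtain ⟨μ, h0, h1, h2⟩ := h
  let f : B → ℝ≥0∞ := fun b => if hb : b ∈ L then ENNReal.ofReal (μ ⟨b, hb⟩) else 0
  have hf : ∀ b (hb : b ∈ L), f b = ENNReal.ofReal (μ ⟨b, hb⟩) := fun b hb => by
    simp only [f, hb, dif_pos]
  refine ⟨f, fun a ha hne => ?_, fun a ha => ?_, fun a ha hdis => ?_⟩
  · rw [hf a ha, Ne, ENNReal.ofReal_eq_zero, not_le]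
    apply h1
    intro h
    exact hne (congrArg Subtype.val h)
  · rw [hf a ha]; exact ENNReal.ofReal_ne_top
  · have hs := h2 (fun n => ⟨a n, ha n⟩) ⟨⨆ n, a n, iSup_mem hL ha⟩ (fun i j hij => by
      apply Subtype.ext
      exact (hdis hij).eq_bot) (by
      constructor
      · rintro _ ⟨n, rfl⟩
        exact le_iSup a n
      · rintro ⟨b, hb⟩ hub
        change ⨆ n, a n ≤ b
        refine iSup_le (fun n => ?_)
        exact hub ⟨n, rfl⟩)
    rw [hf _ (iSup_mem hL ha), ← hs.tsum_eq, ENNReal.ofReal_tsum_of_nonneg (fun n => h0 _) hs.summable]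
    refine tsum_congr (fun n => ?_)
    rw [hf _ (ha n)]

namespace MeasOn

variable {L : BooleanSubalgebra B} {μ : B → ℝ≥0∞}

theorem bot (h : MeasOn L μ) : μ ⊥ = 0 := by
  have h1 := h.add (fun _ => ⊥) (fun _ => BooleanSubalgebra.bot_mem) (fun _ _ _ => disjoint_bot_left)
  by_contra hne
  have h2 : ∑' _ : ℕ, μ (⊥ : B) = ∞ := ENNReal.tsum_const_eq_top_of_ne_zero hne
  rw [h2, iSup_bot] at h1
  exact h.fin ⊥ BooleanSubalgebra.bot_mem h1

theorem sup (h : MeasOn L μ) {a b : B} (ha : a ∈ L) (hb : b ∈ L) (hab : Disjoint a b) :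
    μ (a ⊔ b) = μ a + μ b := by
  let s : ℕ → B := fun n => if n = 0 then a else if n = 1 then b else ⊥
  have h1 := h.add s (fun n => by
    simp only [s]; split_ifs
    · exact ha
    · exact hb
    · exact BooleanSubalgebra.bot_mem) (by
    intro i j hij
    simp only [s, Function.onFun]
    split_ifs <;> first | omega | simp_all [hab.symm])
  have h2 : ⨆ n, s n = a ⊔ b := by
    apply le_antisymm
    · refine iSup_le (fun n => ?_)
      simp only [s]; split_ifs <;> simp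
    · refine sup_le ?_ ?_
      · exact le_iSup_of_le 0 (by simp [s])
      · exact le_iSup_of_le 1 (by simp [s])
  rw [h2, tsum_eq_sum (s := Finset.range 2)] at h1
  · rw [h1]; simp [Finset.sum_range_succ, s]
  · intro n hn
    simp only [Finset.mem_range, not_lt] at hn
    simp only [s]
    rw [if_neg (by omega), if_neg (by omega)]
    exact h.bot

theorem mono (h : MeasOn L μ) {a b : B} (ha : a ∈ L) (hb : b ∈ L) (hab : a ≤ b) :
    μ a ≤ μ b := by
  have h1 := h.sup ha (BooleanSubalgebra.sdiff_mem hb ha) disjoint_sdiff_self_right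
  rw [sup_sdiff_cancel_right hab] at h1
  rw [h1]; exact le_self_add

theorem iSup_le_tsum (h : MeasOn L μ) {a : ℕ → B} (ha : ∀ n, a n ∈ L) :
    μ (⨆ n, a n) ≤ ∑' n, μ (a n) := by
  have hmem : ∀ n, disjointed a n ∈ L := fun n =>
    disjointedRec (p := fun b => b ∈ L) (fun t i ht => BooleanSubalgebra.sdiff_mem ht (ha i)) (ha n)
  rw [← iSup_disjointed, h.add _ hmem (disjoint_disjointed a)]
  exact ENNReal.tsum_le_tsum (fun n => h.mono (hmem n) (ha n) (disjointed_le a n))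

end MeasOn

/-- Absolute continuity of a continuous outer measure with respect to a measure. -/
theorem abs_cont {m : B → ℝ} (hm : IsContinuousOuterMeasure m) {L : BooleanSubalgebra B}
    (hL : IsCompleteSubalgebra L) {μ : B → ℝ≥0∞} (h : MeasOn L μ) {ε : ℝ} (hε : 0 < ε) :
    ∃ δ : ℝ≥0∞, 0 < δ ∧ ∀ a ∈ L, ε ≤ m a → δ ≤ μ a := by
  by_contra hcon
  push Not at hcon
  obtain ⟨w, hw1, hw2⟩ := ENNReal.exists_pos_sum_of_countable (ε := 1) one_ne_zero ℕ
  choose a ha1 ha2 ha3 using fun n : ℕ => hcon (w n) (by exact_mod_cast hw1 n)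
  let b : ℕ → B := fun n => ⨆ k, a (n + k)
  have hbL : ∀ n, b n ∈ L := fun n => iSup_mem hL (fun k => ha1 (n + k))
  have hbanti : ∀ n, b (n + 1) ≤ b n := by
    intro n
    refine iSup_le (fun k => ?_)
    refine le_iSup_of_le (k + 1) ?_
    rw [show n + 1 + k = n + (k + 1) by ring]
  have hbtail : Tendsto (fun n => ∑' k, (w (n + k) : ℝ≥0∞)) atTop (𝓝 0) := by
    have hne : ∑' k, (w k : ℝ≥0∞) ≠ ∞ := (hw2.trans (by simp)).ne
    have := ENNReal.tendsto_sum_nat_add (fun k => (w k : ℝ≥0∞)) hne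
    refine this.congr (fun n => ?_)
    exact tsum_congr (fun k => by rw [add_comm])
  have hbμ : ∀ n, μ (b n) ≤ ∑' k, (w (n + k) : ℝ≥0∞) := by
    intro n
    refine (h.iSup_le_tsum (fun k => ha1 (n + k))).trans ?_
    exact ENNReal.tsum_le_tsum (fun k => (ha3 (n + k)).le)
  have hc : ⨅ n, b n = ⊥ := by
    by_contra hne
    apply h.pos _ (iInf_mem hL hbL) hne
    have : ∀ n, μ (⨅ n, b n) ≤ ∑' k, (w (n + k) : ℝ≥0∞) := fun n =>
      (h.mono (iInf_mem hL hbL) (hbL n) (iInf_le b n)).trans (hbμ n)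
    exact le_antisymm (ge_of_tendsto' hbtail this) bot_le
  have hlim := hm.2.2.2.2.2 b hbanti hc
  have hge : ∀ n, ε ≤ m (b n) := fun n =>
    (ha2 n).trans (hm.2.2.2.1 _ _ (le_iSup_of_le 0 (by simp)))
  have := ge_of_tendsto' hlim hge
  linarith

/-- Uniform lower bounds over all countably generated complete subalgebras. -/
theorem uniform {m : B → ℝ} (hm : IsContinuousOuterMeasure m)
    (hsub : ∀ L : BooleanSubalgebra B, IsCompleteSubalgebra L → CountablyGenerated L →
      ∃ μ : L → ℝ, IsMeasure μ) {ε : ℝ} (hε : 0 < ε) :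
    ∃ δ : ℝ≥0∞, 0 < δ ∧ ∀ G : Set B, G.Countable → ∃ ν : B → ℝ≥0∞, ν ⊤ ≤ 1 ∧
      (∀ a ∈ gen G, ∀ b ∈ gen G, Disjoint a b → ν (a ⊔ b) = ν a + ν b) ∧
      (∀ a ∈ gen G, ε ≤ m a → δ ≤ ν a) := by
  by_contra hcon
  push Not at hcon
  choose G hG1 hG2 using fun n : ℕ => hcon ((n : ℝ≥0∞) + 1)⁻¹ (by
    rw [ENNReal.inv_pos]
    exact ENNReal.add_ne_top.mpr ⟨ENNReal.natCast_ne_top n, ENNReal.one_ne_top⟩)
  let H : Set B := ⋃ n, G n
  have hH : H.Countable := countable_iUnion hG1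
  obtain ⟨μ, hμ⟩ := exists_measOn (gen_complete H) (hsub (gen H) (gen_complete H) (gen_cg hH))
  obtain ⟨δ, hδ1, hδ2⟩ := abs_cont hm (gen_complete H) hμ hε
  by_cases htop : (⊤ : B) = ⊥
  · obtain ⟨a, -, ha2, -⟩ := hG2 0 (fun _ => 0) (by simp) (by simp)
    have : a = ⊥ := le_bot_iff.mp (htop ▸ le_top)
    rw [this, hm.2.1] at ha2
    linarith
  · have hc0 : μ ⊤ ≠ 0 := hμ.pos _ BooleanSubalgebra.top_mem htop
    have hc1 : μ ⊤ ≠ ∞ := hμ.fin _ BooleanSubalgebra.top_mem
    obtain ⟨n, hn⟩ := ENNReal.exists_inv_nat_lt (a := δ / μ ⊤) (by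
      rw [Ne, ENNReal.div_eq_zero_iff, not_or]; exact ⟨hδ1.ne', hc1⟩)
    obtain ⟨a, ha1, ha2, ha3⟩ := hG2 n (fun b => μ b / μ ⊤) (by
      rw [ENNReal.div_self hc0 hc1]) (by
      intro a ha b hb hab
      rw [hμ.sup (gen_mono (subset_iUnion G n) ha) (gen_mono (subset_iUnion G n) hb) hab,
        ENNReal.add_div])
    have h1 : δ / μ ⊤ ≤ μ a / μ ⊤ :=
      ENNReal.div_le_div_right (hδ2 a (gen_mono (subset_iUnion G n) ha1) ha2) _
    have h2 : ((n : ℝ≥0∞) + 1)⁻¹ ≤ (n : ℝ≥0∞)⁻¹ := ENNReal.inv_le_inv.mpr le_self_add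
    exact absurd (ha3.trans_le h2) (not_lt.mpr (hn.le.trans h1))

/-- Compactness: a finitely additive functional on the whole algebra. -/
theorem exists_fa {m : B → ℝ} (hm : IsContinuousOuterMeasure m)
    (hsub : ∀ L : BooleanSubalgebra B, IsCompleteSubalgebra L → CountablyGenerated L →
      ∃ μ : L → ℝ, IsMeasure μ) {ε : ℝ} (hε : 0 < ε) :
    ∃ (δ : ℝ≥0∞) (ν : B → ℝ≥0∞), 0 < δ ∧ ν ⊤ ≤ 1 ∧
      (∀ a b, Disjoint a b → ν (a ⊔ b) = ν a + ν b) ∧ (∀ a, ε ≤ m a → δ ≤ ν a) := by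
  classical
  obtain ⟨δ, hδ, h⟩ := uniform hm hsub hε
  choose f hf1 hf2 hf3 using fun F : Finset B => h (F : Set B) F.countable_toSet
  let 𝒰 : Ultrafilter (Finset B) := Ultrafilter.of atTop
  have h𝒰 : (𝒰 : Filter (Finset B)) ≤ atTop := Ultrafilter.of_le atTop
  have hconv : ((𝒰.map f : Ultrafilter (B → ℝ≥0∞)) : Filter (B → ℝ≥0∞)) ≤ 𝓝 (𝒰.map f).lim :=
    (𝒰.map f).le_nhds_lim
  have hlim : ∀ a, Tendsto (fun F => f F a) 𝒰 (𝓝 ((𝒰.map f).lim a)) := by
    intro a
    have : Tendsto f 𝒰 (𝓝 (𝒰.map f).lim) := hconv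
    exact ((continuous_apply a).tendsto _).comp this
  have hev : ∀ a : B, ∀ᶠ F : Finset B in (𝒰 : Filter (Finset B)), a ∈ gen (F : Set B) := by
    intro a
    apply h𝒰
    filter_upwards [Filter.eventually_ge_atTop ({a} : Finset B)] with F hF
    apply subset_gen
    exact hF (Finset.mem_singleton_self a)
  refine ⟨δ, (𝒰.map f).lim, hδ, ?_, ?_, ?_⟩
  · exact le_of_tendsto' (hlim ⊤) hf1
  · intro a b hab
    refine tendsto_nhds_unique_of_eventuallyEq (hlim (a ⊔ b)) ((hlim a).add (hlim b)) ?_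
    filter_upwards [hev a, hev b] with F ha hb
    exact hf2 F a ha b hb hab
  · intro a ha
    refine ge_of_tendsto (hlim a) ?_
    filter_upwards [hev a] with F haF
    exact hf3 F a haF ha

/-- The countably additive part of a finitely additive functional. -/
noncomputable def ca (ν : B → ℝ≥0∞) (b : B) : ℝ≥0∞ :=
  ⨅ (a : ℕ → B) (_ : Pairwise (Disjoint on a)) (_ : ⨆ n, a n = b), ∑' n, ν (a n)

theorem ca_le (ν : B → ℝ≥0∞) {a : ℕ → B} (h : Pairwise (Disjoint on a)) :
    ca ν (⨆ n, a n) ≤ ∑' n, ν (a n) :=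
  iInf_le_of_le a (iInf_le_of_le h (iInf_le_of_le rfl le_rfl))

theorem fa_bot {ν : B → ℝ≥0∞} (hν1 : ν ⊤ ≤ 1)
    (hν : ∀ a b, Disjoint a b → ν (a ⊔ b) = ν a + ν b) : ν ⊥ = 0 := by
  have h1 := hν ⊤ ⊥ disjoint_bot_right
  rw [sup_bot_eq] at h1
  have hfin : ν ⊤ ≠ ∞ := (hν1.trans_lt ENNReal.one_lt_top).ne
  by_contra hne
  have : ν ⊤ < ν ⊤ + ν ⊥ := ENNReal.lt_add_right hfin hne
  exact absurd h1 this.ne

theorem fa_sum_le {ν : B → ℝ≥0∞} (hν1 : ν ⊤ ≤ 1)
    (hν : ∀ a b, Disjoint a b → ν (a ⊔ b) = ν a + ν b) {a : ℕ → B}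
    (h : Pairwise (Disjoint on a)) (b : B) : ∑' n, ν (b ⊓ a n) ≤ ν b := by
  have hmono : ∀ x y, x ≤ y → ν x ≤ ν y := by
    intro x y hxy
    have h1 := hν x (y \ x) disjoint_sdiff_self_right
    rw [sup_sdiff_cancel_right hxy] at h1
    rw [h1]; exact le_self_add
  have key : ∀ s : Finset ℕ, ∑ n ∈ s, ν (b ⊓ a n) = ν (b ⊓ s.sup a) := by
    intro s
    induction s using Finset.induction_on with
    | empty => simp [fa_bot hν1 hν]
    | insert i s hi ih =>
      rw [Finset.sum_insert hi, ih, Finset.sup_insert, inf_sup_left, hν]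
      refine Disjoint.mono inf_le_right inf_le_right ?_
      rw [Finset.disjoint_sup_right]
      intro j hj
      exact h (fun hij => hi (hij ▸ hj))
  rw [ENNReal.tsum_eq_iSup_sum]
  refine iSup_le (fun s => ?_)
  rw [key s]
  exact hmono _ _ inf_le_left

theorem ca_add {ν : B → ℝ≥0∞} (hν1 : ν ⊤ ≤ 1)
    (hν : ∀ a b, Disjoint a b → ν (a ⊔ b) = ν a + ν b) {b : ℕ → B}
    (hb : Pairwise (Disjoint on b)) : ca ν (⨆ n, b n) = ∑' n, ca ν (b n) := by
  apply le_antisymm
  · refine ENNReal.le_of_forall_pos_le_add (fun ε hε hfin => ?_)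
    obtain ⟨w, hw1, hw2⟩ := ENNReal.exists_pos_sum_of_countable (ε := ε)
      (by exact_mod_cast hε.ne') ℕ
    have hlt : ∀ k, ca ν (b k) < ca ν (b k) + w k := by
      intro k
      refine ENNReal.lt_add_right ?_ (by exact_mod_cast (hw1 k).ne')
      exact ne_top_of_le_ne_top hfin.ne (ENNReal.le_tsum k)
    have hch : ∀ k, ∃ a : ℕ → B, Pairwise (Disjoint on a) ∧ ⨆ n, a n = b k ∧
        ∑' n, ν (a n) < ca ν (b k) + w k := by
      intro k
      have := hlt k
      conv_lhs at this => unfold ca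
      simp only [iInf_lt_iff] at this
      obtain ⟨a, h1, h2, h3⟩ := this
      exact ⟨a, h1, h2, h3⟩
    choose a ha1 ha2 ha3 using hch
    let c : ℕ → B := fun n => a (Nat.unpair n).1 (Nat.unpair n).2
    have hc1 : Pairwise (Disjoint on c) := by
      intro i j hij
      simp only [c, Function.onFun]
      by_cases h : (Nat.unpair i).1 = (Nat.unpair j).1
      · have h2 : (Nat.unpair i).2 ≠ (Nat.unpair j).2 := by
          intro h2
          apply hij
          rw [← Nat.pair_unpair i, ← Nat.pair_unpair j, h, h2]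
        rw [h]
        exact ha1 _ h2
      · refine Disjoint.mono ?_ ?_ (hb h)
        · rw [← ha2]; exact le_iSup _ _
        · rw [← ha2]; exact le_iSup _ _
    have hc2 : ⨆ n, c n = ⨆ n, b n := by
      apply le_antisymm
      · refine iSup_le (fun n => le_iSup_of_le (Nat.unpair n).1 ?_)
        rw [← ha2]
        exact le_iSup (a (Nat.unpair n).1) (Nat.unpair n).2
      · refine iSup_le (fun n => ?_)
        rw [← ha2]
        refine iSup_le (fun k => le_iSup_of_le (Nat.pair n k) ?_)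
        simp only [c, Nat.unpair_pair]
        exact le_rfl
    have hc3 : ∑' n, ν (c n) = ∑' k, ∑' n, ν (a k n) := by
      rw [← ENNReal.tsum_prod (f := fun k n => ν (a k n)), ← (Nat.pairEquiv).tsum_eq]
      refine tsum_congr (fun p => ?_)
      change ν (c (Nat.pair p.1 p.2)) = ν (a p.1 p.2)
      simp only [c, Nat.unpair_pair]
    rw [← hc2]
    refine (ca_le ν hc1).trans ?_
    rw [hc3]
    calc ∑' k, ∑' n, ν (a k n) ≤ ∑' k, (ca ν (b k) + w k) :=
          ENNReal.tsum_le_tsum (fun k => (ha3 k).le)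
      _ = ∑' k, ca ν (b k) + ∑' k, (w k : ℝ≥0∞) := ENNReal.tsum_add
      _ ≤ _ := by gcongr
  · unfold ca
    refine le_iInf (fun a => le_iInf (fun ha1 => le_iInf (fun ha2 => ?_)))
    calc ∑' n, ca ν (b n) ≤ ∑' n, ∑' i, ν (a i ⊓ b n) := by
          refine ENNReal.tsum_le_tsum (fun n => ?_)
          have h1 : ⨆ i, a i ⊓ b n = b n := by
            rw [← iSup_inf_eq, ha2]
            exact inf_eq_right.mpr (le_iSup b n)
          have h2 : Pairwise (Disjoint on fun i => a i ⊓ b n) := fun i j hij =>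
            Disjoint.mono inf_le_left inf_le_left (ha1 hij)
          have := ca_le ν h2
          rwa [h1] at this
      _ = ∑' i, ∑' n, ν (a i ⊓ b n) := ENNReal.tsum_comm
      _ ≤ ∑' i, ν (a i) := ENNReal.tsum_le_tsum (fun i => fa_sum_le hν1 hν hb (a i))

/-- The countably additive part keeps the lower bound. -/
theorem ca_lower {m : B → ℝ} (hm : IsContinuousOuterMeasure m) {ν : B → ℝ≥0∞} {δ : ℝ≥0∞} {ε : ℝ}
    (hν1 : ν ⊤ ≤ 1) (hν : ∀ a b, Disjoint a b → ν (a ⊔ b) = ν a + ν b)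
    (hδ : ∀ a, ε ≤ m a → δ ≤ ν a) {b : B} (hb : ε < m b) : δ ≤ ca ν b := by
  unfold ca
  refine le_iInf (fun a => le_iInf (fun ha1 => le_iInf (fun ha2 => ?_)))
  let c : ℕ → B := fun n => b \ (Finset.range n).sup a
  have hc1 : ∀ n, c (n + 1) ≤ c n := by
    intro n
    refine sdiff_le_sdiff_left ?_
    exact Finset.sup_mono (Finset.range_mono (Nat.le_succ n))
  have hc2 : ⨅ n, c n = ⊥ := by
    rw [← le_bot_iff]
    have h1 : ⨅ n, c n ≤ b := (iInf_le c 0).trans sdiff_le
    have h2 : ∀ n, Disjoint (⨅ n, c n) (a n) := by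
      intro n
      have h3 : ⨅ n, c n ≤ c (n + 1) := iInf_le c (n + 1)
      have h4 : Disjoint (c (n + 1)) ((Finset.range (n + 1)).sup a) := disjoint_sdiff_self_left
      refine Disjoint.mono h3 ?_ h4
      exact Finset.le_sup (f := a) (Finset.self_mem_range_succ n)
    have h5 : Disjoint (⨅ n, c n) b := by
      rw [← ha2, disjoint_iSup_iff]
      exact h2
    exact (le_inf le_rfl h1).trans h5.le_bot
  have hlim := hm.2.2.2.2.2 c hc1 hc2
  obtain ⟨n, hn⟩ := (hlim.eventually (gt_mem_nhds (sub_pos.mpr hb))).exists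
  have hsup : (Finset.range n).sup a ≤ b := by
    refine Finset.sup_le (fun i _ => ?_)
    rw [← ha2]; exact le_iSup a i
  have h1 : m b ≤ m ((Finset.range n).sup a) + m (c n) := by
    have := hm.2.2.2.2.1 ((Finset.range n).sup a) (c n)
    rwa [sup_sdiff_cancel_right hsup] at this
  have h2 : ε ≤ m ((Finset.range n).sup a) := by linarith
  have h3 := hδ _ h2
  have key : ∀ s : Finset ℕ, ∑ i ∈ s, ν (a i) = ν (s.sup a) := by
    intro s
    induction s using Finset.induction_on with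
    | empty => simp [fa_bot hν1 hν]
    | insert i s hi ih =>
      rw [Finset.sum_insert hi, ih, Finset.sup_insert, hν]
      rw [Finset.disjoint_sup_right]
      intro j hj
      exact ha1 (fun hij => hi (hij ▸ hj))
  rw [← key] at h3
  exact h3.trans (ENNReal.sum_le_tsum _)

/-- **Main theorem.** A ccc complete Boolean algebra with a continuous outer measure, all of whose
countably generated complete subalgebras admit measures, admits a measure. -/
theorem result (B : Type u) [CompleteBooleanAlgebra B] (_hccc : CCC B)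
    (hsub : ∀ L : BooleanSubalgebra B, IsCompleteSubalgebra L → CountablyGenerated L →
      ∃ μ : L → ℝ, IsMeasure μ)
    (hout : ∃ m : B → ℝ, IsContinuousOuterMeasure m) :
    ∃ μ : B → ℝ, IsMeasure μ := by
  obtain ⟨m, hm⟩ := hout
  choose δ ν hδ hν1 hν hδν using fun n : ℕ =>
    exists_fa hm hsub (ε := 1 / ((n : ℝ) + 1)) (by positivity)
  let M : B → ℝ≥0∞ := fun b => ∑' n, (2⁻¹ : ℝ≥0∞) ^ n * ca (ν n) b
  have hMadd : ∀ b : ℕ → B, Pairwise (Disjoint on b) → M (⨆ n, b n) = ∑' n, M (b n) := by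
    intro b hb
    simp only [M]
    rw [ENNReal.tsum_comm]
    refine tsum_congr (fun n => ?_)
    rw [ca_add (hν1 n) (hν n) hb, ENNReal.tsum_mul_left]
  have hcale : ∀ n b, ca (ν n) b ≤ 1 := by
    intro n b
    have h1 : ca (ν n) b ≤ ν n b := by
      have h2 : Pairwise (Disjoint on fun i : ℕ => if i = 0 then b else ⊥) := by
        intro i j hij
        simp only [Function.onFun]
        split_ifs <;> first | omega | simp
      have h3 := ca_le (ν n) h2
      have h4 : ⨆ i : ℕ, (if i = 0 then b else ⊥) = b := by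
        apply le_antisymm
        · refine iSup_le (fun i => ?_)
          split_ifs <;> simp
        · exact le_iSup_of_le 0 (by simp)
      rw [h4, tsum_eq_single 0] at h3
      · simpa using h3
      · intro i hi
        simp [hi, fa_bot (hν1 n) (hν n)]
    have h2 : ν n b ≤ ν n ⊤ := by
      have h1 := hν n b bᶜ disjoint_compl_right
      rw [sup_compl_eq_top] at h1
      rw [h1]; exact le_self_add
    exact h1.trans (h2.trans (hν1 n))
  have hMfin : ∀ b, M b ≠ ∞ := by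
    intro b
    have : M b ≤ 2 := by
      calc M b ≤ ∑' n : ℕ, (2⁻¹ : ℝ≥0∞) ^ n := by
            refine ENNReal.tsum_le_tsum (fun n => ?_)
            calc _ ≤ (2⁻¹ : ℝ≥0∞) ^ n * 1 := by gcongr; exact hcale n b
              _ = _ := mul_one _
        _ = 2 := by
            rw [ENNReal.tsum_geometric, ENNReal.one_sub_inv_two, inv_inv]
    exact ne_top_of_le_ne_top (by simp) this
  refine ⟨fun b => (M b).toReal, fun b => ENNReal.toReal_nonneg, fun b hb => ?_, fun a s ha hs => ?_⟩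
  · refine ENNReal.toReal_pos ?_ (hMfin b)
    have hmb := hm.2.2.1 b hb
    obtain ⟨n, hn⟩ := exists_nat_one_div_lt hmb
    intro h0
    simp only [M, ENNReal.tsum_eq_zero] at h0
    have h1 := h0 n
    have h2 : δ n ≤ ca (ν n) b := ca_lower hm (hν1 n) (hν n) (hδν n) hn
    rcases mul_eq_zero.mp h1 with h3 | h3
    · have : (2⁻¹ : ℝ≥0∞) ≠ 0 := by simp
      exact pow_ne_zero n this h3
    · rw [h3] at h2
      exact absurd (hδ n) (not_lt.mpr h2)
  · have hs' : s = ⨆ n, a n := hs.unique (isLUB_iSup)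
    have hd : Pairwise (Disjoint on a) := fun i j hij => disjoint_iff.mpr (ha i j hij)
    have hsum := hMadd a hd
    rw [← hs'] at hsum
    change HasSum (fun n => (M (a n)).toReal) (M s).toReal
    rw [hsum, ENNReal.tsum_toReal_eq (fun n => hMfin _)]
    apply Summable.hasSum
    apply ENNReal.summable_toReal
    rw [← hsum]
    exact hMfin s

end Pool.Agent.Results.MP_2d6919_lc.Full
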